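import Pool.Agent.Helper430.LF5

namespace Pool.Agent.Results.MP_7538d4_al.TrivialCentralizer

/-- A group is locally finite if every finitely generated subgroup of it is finite. -/
def LocallyFinite (G : Type) [Group G] : Prop := ∀ H : Subgroup G, H.FG → Finite H

/-- There is an infinite simple locally finite group `G` which is not linear (it embeds in no
`GL_n(k)`, `k` a field in any universe) and a finite subgroup `F` of `G` whose centralizer in `G` is
trivial. -/
theorem result.{u} : ∃ (G : Type) (_ : Group G), Infinite G ∧ IsSimpleGroup G ∧ LocallyFinite G ∧
    (∃ F : Subgroup G, Finite F ∧ Subgroup.centralizer (F : Set G) = ⊥) ∧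
    ∀ (k : Type u) [Field k] (n : ℕ) (f : G →* Matrix.GeneralLinearGroup (Fin n) k),
      ¬ Function.Injective f := by
  exact H430.LF.main.{u}

end Pool.Agent.Results.MP_7538d4_al.TrivialCentralizer
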